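import Pool.Agent.H21.LoopSN2

namespace Pool.Agent.Results.MP_543b9c_al.Unbounded

open Pool.Agent.H21.Loop

def IsNormalSubloop {Q : Type} [MulOneClass Q] (N : Set Q) : Prop :=
  1 ∈ N ∧ (∀ a ∈ N, ∀ b ∈ N, a * b ∈ N) ∧ (∀ a ∈ N, ∀ x, a * x ∈ N → x ∈ N) ∧
    (∀ a ∈ N, ∀ x, x * a ∈ N → x ∈ N) ∧ ∀ σ ∈ Mlt Q, σ 1 = 1 → ∀ a ∈ N, σ a ∈ N

def Cong {Q : Type} [MulOneClass Q] (N : Set Q) (u v : Q) : Prop := ∃ n ∈ N, u = n * v

def CentralMod {Q : Type} [MulOneClass Q] (N : Set Q) (a : Q) : Prop :=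
  ∀ x y, Cong N (a * x) (x * a) ∧ Cong N (a * (x * y)) ((a * x) * y) ∧
    Cong N (x * (a * y)) ((x * a) * y) ∧ Cong N (x * (y * a)) ((x * y) * a)

def CentralSeries (Q : Type) [MulOneClass Q] (k : ℕ) : Prop :=
  ∃ N : ℕ → Set Q, N 0 = {1} ∧ N k = Set.univ ∧ (∀ i ≤ k, IsNormalSubloop (N i)) ∧
    ∀ i < k, N i ⊆ N (i + 1) ∧ ∀ a ∈ N (i + 1), CentralMod (N i) a

def L (m : ℕ) : Type := (Fin (m + 2) → ZMod 2) × ZMod 2

variable {m : ℕ}

instance : Finite (L m) := inferInstanceAs (Finite ((Fin (m + 2) → ZMod 2) × ZMod 2))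

def GG (x : Fin (m + 2) → ZMod 2) : ZMod 2 := ∏ i, x i

lemma GG_zero {x : Fin (m + 2) → ZMod 2} (j : Fin (m + 2)) (h : x j = 0) : GG x = 0 :=
  Finset.prod_eq_zero (Finset.mem_univ j) h

instance : MulOneClass (L m) where
  mul x y := (x.1 + y.1, x.2 + y.2 + GG x.1 * y.1 0)
  one := (0, 0)
  one_mul x := Prod.ext (zero_add _) (by
    show (0 : ZMod 2) + x.2 + GG 0 * x.1 0 = x.2
    rw [GG_zero 0 rfl]; simp)
  mul_one x := Prod.ext (add_zero _) (by
    show x.2 + (0 : ZMod 2) + GG x.1 * 0 = x.2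
    simp)

lemma mul1 (x y : L m) : (x * y).1 = x.1 + y.1 := rfl
lemma mul2 (x y : L m) : (x * y).2 = x.2 + y.2 + GG x.1 * y.1 0 := rfl
lemma one1 : (1 : L m).1 = 0 := rfl
lemma one2 : (1 : L m).2 = 0 := rfl
lemma Lext {x y : L m} (h1 : x.1 = y.1) (h2 : x.2 = y.2) : x = y := Prod.ext h1 h2

lemma isLoop : IsLoop (L m) := by
  constructor
  · intro a
    refine Finite.injective_iff_bijective.1 fun x y h => ?_
    have h1 : x.1 = y.1 := add_left_cancel (congrArg Prod.fst h)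
    have h2 : (a * x).2 = (a * y).2 := congrArg Prod.snd h
    rw [mul2, mul2, h1] at h2
    exact Lext h1 (by simpa using h2)
  · intro a
    refine Finite.injective_iff_bijective.1 fun x y h => ?_
    have h1 : x.1 = y.1 := add_right_cancel (congrArg Prod.fst h)
    have h2 : (x * a).2 = (y * a).2 := congrArg Prod.snd h
    rw [mul2, mul2, h1] at h2
    exact Lext h1 (by simpa using h2)

lemma shape (σ : Equiv.Perm (L m)) (h : σ ∈ Mlt (L m)) :
    ∃ (t : Fin (m + 2) → ZMod 2) (f : (Fin (m + 2) → ZMod 2) → ZMod 2),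
      ∀ x : L m, (σ x).1 = x.1 + t ∧ (σ x).2 = x.2 + f x.1 := by
  induction h using Subgroup.closure_induction with
  | mem σ h =>
    obtain ⟨a, h | h⟩ := h
    · exact ⟨a.1, fun x => a.2 + GG a.1 * x 0, fun x => by
        rw [h]; simp only [mul1, mul2]; constructor <;> ring⟩
    · exact ⟨a.1, fun x => a.2 + GG x * a.1 0, fun x => by
        rw [h]; simp only [mul1, mul2, add_assoc, and_self]⟩
  | one => exact ⟨0, 0, fun x => by simp⟩
  | mul σ τ _ _ h1 h2 =>
    obtain ⟨t, f, h1⟩ := h1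
    obtain ⟨s, g, h2⟩ := h2
    exact ⟨s + t, fun x => g x + f (x + s), fun x => by
      simp only [Equiv.Perm.mul_apply, h1, h2, add_assoc, and_self]⟩
  | inv σ _ h1 =>
    obtain ⟨t, f, h1⟩ := h1
    refine ⟨-t, fun x => - f (x - t), fun x => ?_⟩
    obtain ⟨y, rfl⟩ := σ.surjective x
    simp [h1, add_assoc, CharTwo.add_self_eq_zero]

lemma nilp : Group.IsNilpotent (Mlt (L m)) := by
  haveI : Fact (Nat.Prime 2) := ⟨Nat.prime_two⟩
  refine IsPGroup.isNilpotent (p := 2) fun σ => ⟨2, ?_⟩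
  obtain ⟨t, f, h⟩ := shape σ.1 σ.2
  have ht : t + t = 0 := by funext i; exact CharTwo.add_self_eq_zero _
  ext1; ext1 x
  show σ.1 (σ.1 (σ.1 (σ.1 x))) = x
  apply Lext
  · simp only [h, add_assoc, ht]; simp [ht]
  · simp only [h, add_assoc, ht, add_zero]
    have := CharTwo.add_self_eq_zero (f x.1 + f (x.1 + t))
    linear_combination this

lemma cs2 : CentralSeries (L m) 2 := by
  refine ⟨fun i => if i = 0 then {1} else if i = 1 then {x | x.1 = 0} else Set.univ, rfl, rfl, ?_, ?_⟩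
  · intro i hi
    interval_cases i
    · refine ⟨rfl, ?_, ?_, ?_, ?_⟩
      · rintro _ rfl _ rfl; simp
      · rintro _ rfl x h; simpa using h
      · rintro _ rfl x h; simpa using h
      · rintro σ _ h _ rfl; exact h
    · refine ⟨rfl, ?_, ?_, ?_, ?_⟩
      · intro a ha b hb; simp_all [mul1]
      · intro a ha b hb; simp_all [mul1]
      · intro a ha b hb; simp_all [mul1]
      · intro σ hσ h a ha
        obtain ⟨t, f, e⟩ := shape σ hσ
        have := (e 1).1
        rw [h] at this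
        simp_all
    · exact ⟨trivial, fun _ _ _ _ => trivial, fun _ _ _ _ => trivial, fun _ _ _ _ => trivial,
        fun _ _ _ _ _ => trivial⟩
  · intro i hi
    interval_cases i
    · refine ⟨by rintro _ rfl; exact one1, fun a ha x y => ?_⟩
      have ha' : a.1 = 0 := ha
      have g0 : GG (0 : Fin (m + 2) → ZMod 2) = 0 := GG_zero 0 rfl
      refine ⟨⟨1, rfl, ?_⟩, ⟨1, rfl, ?_⟩, ⟨1, rfl, ?_⟩, ⟨1, rfl, ?_⟩⟩ <;> rw [one_mul] <;> apply Lext <;>
        simp [mul1, mul2, ha', g0] <;> ring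
    · refine ⟨fun _ _ => trivial, fun a _ x y => ?_⟩
      have key : ∀ u v : L m, u.1 = v.1 → Cong {x : L m | x.1 = 0} u v := by
        intro u v h
        refine ⟨((0, u.2 - v.2) : (Fin (m + 2) → ZMod 2) × ZMod 2), rfl, Lext ?_ ?_⟩
        · rw [mul1, h]; simp
        · rw [mul2]; simp [GG_zero (x := (0 : Fin (m + 2) → ZMod 2)) 0 rfl]
      refine ⟨key _ _ ?_, key _ _ ?_, key _ _ ?_, key _ _ ?_⟩ <;> simp only [mul1] <;> ring

def e0 : L m := (Pi.single 0 1, 0)

lemma GG_e0 : GG (e0 (m := m)).1 = 0 := GG_zero 1 (by simp [e0])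

lemma ncs1 : ¬ CentralSeries (L m) 1 := by
  rintro ⟨N, h0, h1, -, h⟩
  obtain ⟨n, hn, e⟩ := ((h 0 (by norm_num)).2 e0 (by rw [zero_add, h1]; trivial)
    ((1, 0) : (Fin (m + 2) → ZMod 2) × ZMod 2) 1).1
  rw [h0] at hn
  rw [show n = 1 from hn, one_mul] at e
  have := congrArg Prod.snd e
  rw [mul2, mul2, GG_e0] at this
  simp [GG, e0] at this

def dl (u : Fin (m + 2) → L m) : List (Fin (m + 2)) → (Fin (m + 2) → ZMod 2) → ZMod 2
  | [], w => GG w
  | i :: l, w => dl u l (w + (u i).1) + dl u l w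

lemma dl_poly (l : List (Fin (m + 2))) : ∀ z : (Fin (m + 2) → L m) → L m, Pool.Agent.H21.Loop.IsPoly z →
    Pool.Agent.H21.Loop.IsPoly (fun u => (((0, dl u l (z u).1) : (Fin (m + 2) → ZMod 2) × ZMod 2) : L m)) := by
  induction l with
  | nil =>
    intro z hz
    refine Pool.Agent.H21.Loop.IsPoly.rdiv (Pool.Agent.H21.Loop.IsPoly.mul (Pool.Agent.H21.Loop.IsPoly.const e0) hz) (Pool.Agent.H21.Loop.IsPoly.mul hz (Pool.Agent.H21.Loop.IsPoly.const e0)) fun u => ?_
    apply Lext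
    · simp [mul1, add_comm]
    · simp only [mul1, mul2, GG_e0, dl, GG_zero (x := (0 : Fin (m + 2) → ZMod 2)) 0 rfl]
      simp [e0]; ring
  | cons i l ih =>
    intro z hz
    convert Pool.Agent.H21.Loop.IsPoly.mul (ih _ (Pool.Agent.H21.Loop.IsPoly.mul hz (Pool.Agent.H21.Loop.IsPoly.var i))) (ih _ hz) using 2 with u
    apply Lext
    · simp [mul1]
    · simp [mul1, mul2, dl]

lemma dl_abs (u : Fin (m + 2) → L m) (i : Fin (m + 2)) (hi : u i = 1) (l : List (Fin (m + 2)))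
    (hl : i ∈ l) : ∀ w, dl u l w = 0 := by
  induction l with
  | nil => simp at hl
  | cons j l ih =>
    intro w
    rcases List.mem_cons.1 hl with rfl | h
    · simp [dl, hi, one1, CharTwo.add_self_eq_zero]
    · simp [dl, ih h]

def uu (i : Fin (m + 2)) : L m := (Pi.single i 1, 0)

lemma dl_zero (l : List (Fin (m + 2))) (j : Fin (m + 2)) (hj : j ∉ l) :
    ∀ w, w j = 0 → dl uu l w = 0 := by
  induction l with
  | nil => intro w h; exact GG_zero j h
  | cons i l ih =>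
    intro w h
    rw [List.mem_cons, not_or] at hj
    rw [dl, ih hj.2 w h, ih hj.2 _ (by simp [uu, h, hj.1]), add_zero]

lemma dl_one (l : List (Fin (m + 2))) (hl : l.Nodup) :
    ∀ w, (∀ j, j ∉ l → w j = 1) → dl uu l w = 1 := by
  induction l with
  | nil => intro w h; simp [dl, GG, h]
  | cons i l ih =>
    intro w h
    rw [List.nodup_cons] at hl
    have h01 : ∀ a : ZMod 2, a = 0 ∨ a = 1 := by decide
    rcases h01 (w i) with h0 | h0
    · rw [dl, dl_zero l i hl.1 w h0, add_zero]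
      refine ih hl.2 _ fun j hj => ?_
      by_cases e : j = i
      · subst e; simp [uu, h0]
      · simp [uu, e, h j (by simp [e, hj])]
    · rw [dl, dl_zero l i hl.1 _ (by simp [uu, h0]; decide), zero_add]
      refine ih hl.2 _ fun j hj => ?_
      by_cases e : j = i
      · subst e; exact h0
      · exact h j (by simp [e, hj])

theorem result (k : ℕ) : ∃ (Q : Type) (_ : MulOneClass Q), IsLoop Q ∧ Finite Q ∧
    (∃ j, 1 ≤ j ∧ Supernilpotent Q j) ∧ CentralSeries Q 2 ∧ ¬ CentralSeries Q 1 ∧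
    ¬ Supernilpotent Q k := by
  refine ⟨L k, inferInstance, isLoop, inferInstance, ?_, cs2, ncs1, fun h => ?_⟩
  · obtain ⟨c, hc⟩ := (nilp (m := k)).nilpotent'
    exact ⟨_, Nat.mul_pos (Pool.Agent.H21.Cube.dd_pos c) (by positivity), supernil isLoop hc⟩
  · have := h (k + 2) (by omega) _ (dl_poly (List.finRange (k + 2)) _ (Pool.Agent.H21.Loop.IsPoly.const 1))
      (fun u i hi => by rw [dl_abs u i hi _ (List.mem_finRange i)]; rfl) uu 1
    have h2 := congrArg Prod.snd this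
    simp only at h2
    rw [dl_one _ (List.nodup_finRange _) _ (fun j hj => absurd (List.mem_finRange j) hj),
      dl_abs 1 0 rfl _ (List.mem_finRange 0)] at h2
    exact one_ne_zero h2

end Pool.Agent.Results.MP_543b9c_al.Unbounded
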